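import Pool.Agent.MWK.Stmts

/-!
# Row CRD of MWK: reading a word with a chain
-/

namespace Pool.Agent.MWK.H75

open Pool.Agent.Helper14_MV Pool.Agent.Helper2_MV Pool.Agent.MWK

/-- **CRD** -/
theorem crd (hF : FreStmt) : CrdStmt := by
  intro θ hθ g cs
  induction cs with
  | nil =>
    intro p B P' hch hB _
    have h1 : ∀ l ∈ B.flatMap g, 2 ≤ P'.count l := by
      intro l hl
      obtain ⟨z, hz, hlz⟩ := List.mem_flatMap.1 hl
      rcases hB z hz with h | h | h | h
      · rw [h] at hlz
        exact absurd hlz List.not_mem_nil
      · exact absurd hz (hch z h)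
      · exact absurd h List.not_mem_nil
      · exact h l hlz
    have h2 := hF θ hθ P' (B.flatMap g) [] h1
    rw [List.append_nil] at h2
    exact h2
  | cons c cs ih =>
    intro p B P' hch hB hok
    obtain ⟨B1, B2, hBB, hp, hc, hcs, hch2⟩ := hch
    obtain ⟨hok1, hok2⟩ := hok
    have h1 : ∀ l ∈ B1.flatMap g, 2 ≤ P'.count l := by
      intro l hl
      obtain ⟨z, hz, hlz⟩ := List.mem_flatMap.1 hl
      have hzB : z ∈ B := by
        rw [hBB]
        exact List.mem_append_left _ hz
      rcases hB z hzB with h | h | h | h
      · rw [h] at hlz
        exact absurd hlz List.not_mem_nil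
      · exact absurd hz (hp z h)
      · rcases List.mem_cons.1 h with h3 | h3
        · rw [h3] at hz
          exact absurd hz hc
        · exact absurd hz (hcs z h3)
      · exact h l hlz
    have h2 := hF θ hθ P' (B1.flatMap g) (g c ++ B2.flatMap g) h1
    have h3 := ih [c] B2 (P' ++ g c) hch2 (by
      intro z hz
      have hzB : z ∈ B := by
        rw [hBB]
        exact List.mem_append_right _ (List.mem_cons_of_mem _ hz)
      rcases hB z hzB with h | h | h | h
      · exact Or.inl h
      · right; right; right
        intro l hl
        exact hok1 l (List.mem_flatMap.2 ⟨z, h, hl⟩)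
      · rcases List.mem_cons.1 h with h4 | h4
        · right; left
          rw [h4]
          exact List.mem_singleton.2 rfl
        · right; right; left
          exact h4
      · right; right; right
        intro l hl
        have := h l hl
        rw [List.count_append]
        omega) (by
      have e : [c].flatMap g = g c := by simp
      rw [e]
      exact hok2)
    have e1 : P' ++ B.flatMap g = P' ++ B1.flatMap g ++ (g c ++ B2.flatMap g) := by
      rw [hBB, List.flatMap_append, List.flatMap_cons, List.append_assoc]
    have e2 : P' ++ ((c :: cs).map g).flatten = P' ++ g c ++ (cs.map g).flatten := by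
      rw [List.map_cons, List.flatten_cons, List.append_assoc]
    have e3 : P' ++ (g c ++ B2.flatMap g) = P' ++ g c ++ B2.flatMap g := by
      rw [List.append_assoc]
    rw [e1, e2]
    rw [e3] at h2
    exact θ.trans h2 h3

end Pool.Agent.MWK.H75
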